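import Pool.Agent.Helper51.PF.Goals

/-!
Project PF, packet CB1: the forbidden sets have at most `2 s` elements.
-/

namespace Pool.Agent.Helper59.PF

open Finset Pool.Agent.Helper51.PF

theorem g_cb1 (hMV : G_MV) (hVV : G_VV) : G_CB1 := by
  classical
  intro p s n0 r hpF hp hs
  have hh1 : 1 ≤ hh p := by unfold hh; omega
  have hhp : hh p < p := by unfold hh; omega
  obtain ⟨hm1, hm2, hm3, hm4, hm5, hm6, hm7⟩ := hMV p s hh1 hs
  obtain ⟨hv1, -⟩ := hVV p s hp hs
  have hkk : 1 ≤ kk p s := by unfold kk; exact Nat.le_add_left _ _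
  have hrr : ∀ m, rr p s m ≤ kk p s := fun m => by
    rw [← hm2]; exact card_filter_le _ _
  have hx0 : ∀ j, j < kk p s → (xx p s j : ZMod p) ≠ 0 := by
    intro j hj
    rw [← hv1 ⟨j, hj⟩]
    exact Units.ne_zero _
  have hW : ∀ m, m < hh p → Wm p s m ≠ 0 := by
    intro m hm
    unfold Wm
    apply div_ne_zero
    · rw [Ne, ZMod.natCast_eq_zero_iff, hpF.out.dvd_factorial]
      omega
    · rw [prod_ne_zero_iff]
      intro j hj
      exact hx0 j (lt_of_lt_of_le (mem_range.mp hj) (hrr m))
  -- the number of admissible `m`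
  set A : Finset ℕ := (Ico 1 (hh p)).filter (fun m => rr p s m = r) with hA
  have hAcard : A.card ≤ s := by
    rcases lt_or_ge (kk p s) r with h | h
    · have : A = ∅ := by
        rw [hA, filter_eq_empty_iff]
        intro m _ hm
        have := hrr m
        omega
      rw [this]; simp
    · have hsub : ∀ m ∈ A, 1 ≤ m ∧ m < hh p ∧ ((r = 0 ∨ xx p s (r - 1) ≤ m) ∧
          (r = kk p s ∨ m < xx p s r)) := by
        intro m hm
        rw [hA, mem_filter, mem_Ico] at hm
        exact ⟨hm.1.1, hm.1.2, (hm7 m r h).mp hm.2⟩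
      rcases Nat.eq_zero_or_pos r with h0 | h0
      · have h1 : A ⊆ Ico 1 (xx p s 0) := by
          intro m hm
          obtain ⟨h2, h3, -, h4⟩ := hsub m hm
          rw [mem_Ico]
          refine ⟨h2, ?_⟩
          rcases h4 with h4 | h4
          · omega
          · rwa [h0] at h4
        have h2 := card_le_card h1
        rw [Nat.card_Ico] at h2
        omega
      · have h1 : A ⊆ Ico (xx p s (r - 1)) (xx p s (r - 1) + s) := by
          intro m hm
          obtain ⟨h2, h3, h4, h5⟩ := hsub m hm
          have h4' : xx p s (r - 1) ≤ m := by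
            rcases h4 with h4 | h4
            · omega
            · exact h4
          rw [mem_Ico]
          refine ⟨h4', ?_⟩
          rcases h5 with h5 | h5
          · rw [h5, hm5] at h4'
            omega
          · have h6 := hm6 (r - 1)
            rw [Nat.sub_add_cancel h0] at h6
            rwa [h6] at h5
        have h2 := card_le_card h1
        rw [Nat.card_Ico] at h2
        omega
  have htgt : ∀ m, (tgt p n0 m).card ≤ 2 := by
    intro m
    unfold tgt
    split_ifs
    · simp
    · simp
    · exact card_le_two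
    · simp
  have hfib : ∀ m ∈ A, (univ.filter (fun g : (ZMod p)ˣ => Wm p s m * (g : ZMod p) ∈ tgt p n0 m)).card
      ≤ 2 := by
    intro m hm
    rw [hA, mem_filter, mem_Ico] at hm
    refine le_trans (card_le_card_of_injOn (fun g : (ZMod p)ˣ => Wm p s m * (g : ZMod p)) ?_ ?_)
      (htgt m)
    · intro g hg
      exact (mem_filter.mp hg).2
    · intro g _ g' _ hgg
      exact Units.ext (mul_left_cancel₀ (hW m hm.1.2) hgg)
  have hsub : BB p s n0 r ⊆ A.biUnion
      (fun m => univ.filter (fun g : (ZMod p)ˣ => Wm p s m * (g : ZMod p) ∈ tgt p n0 m)) := by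
    intro g hg
    unfold BB at hg
    rw [mem_filter] at hg
    obtain ⟨-, m, h1, h2, h3, h4⟩ := hg
    rw [mem_biUnion]
    refine ⟨m, ?_, ?_⟩
    · rw [hA, mem_filter, mem_Ico]
      exact ⟨⟨h1, h2⟩, h3⟩
    · rw [mem_filter]
      exact ⟨mem_univ _, h4⟩
  calc (BB p s n0 r).card ≤ _ := card_le_card hsub
    _ ≤ A.card * 2 := card_biUnion_le_card_mul _ _ _ hfib
    _ ≤ 2 * s := by omega

end Pool.Agent.Helper59.PF
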